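import Pool.Agent.Y148.BS.Two

/-!
# The Bloch-Beilinson filtration in codimension at most two, and the generalised Bloch conjecture

The setting is that of `Pool.Agent.Results.MP_08891c_ag.CurvesAndSurfaces`: `𝒱` is a class of smooth
projective varieties over `k` closed under products, `C` the Chow groups with rational coefficients,
`H` a Weil cohomology theory, `N X j ⊆ CH^j(X)` the kernels of the Abel-Jacobi maps, and `Q` a family
of surfaces together with the projectors on their transcendental motives `t_2(S)` (all surfaces, for
example).

The following are equivalent: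

* there is a Bloch-Beilinson filtration on the Chow groups of codimension at most two of the
  varieties whose Chow motive is a direct summand of the motive of a product of curves and of
  surfaces in `Q`;
* for all `X`, `Y` in this class, every correspondence `Γ ∈ CH^(dim X)(X × Y)` which acts as zero on
  `H^2(X)` acts as zero on the kernel of the Abel-Jacobi map of `CH^2(X)`; for `X` a surface this is
  the generalised Bloch conjecture for zero-cycles;
* the Abel-Jacobi map is injective on `CH^2(t_2(S) ⊗ h^1(T))_hom` and on
  `CH^2(h^1(T_1) ⊗ h^1(T_2) ⊗ h^1(T_3))_hom`, for curves `T`, `T_i` and surfaces `S` in `Q`.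

In particular the generalised Bloch conjecture for all surfaces follows from the injectivity of the
Abel-Jacobi maps on these cycles of dimension one on threefolds `S × T` and `T_1 × T_2 × T_3`.
-/

open CategoryTheory AlgebraicGeometry

set_option autoImplicit false

universe u v w

namespace Pool.Agent.Results.MP_08891c_ag.CodimensionTwo

open Pool.Agent.H914 Pool.Agent.W492.BB Pool.Agent.TH133 Pool.Agent.Y148.BS

/-- On the varieties whose motives are direct summands of motives of products of curves and
surfaces, the following are equivalent: a Bloch-Beilinson filtration exists in codimension at most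
two; correspondences of degree zero which act as zero on `H^2(X)` act as zero on the kernel of the
Abel-Jacobi map of `CH^2(X)`; the Abel-Jacobi maps are injective on the cycles of codimension two of
the motives `t_2(S) ⊗ h^1(T)` and `h^1(T_1) ⊗ h^1(T_2) ⊗ h^1(T_3)`. -/
theorem result {k : Type u} [Field k] {𝒱 : VarClass k} (C : TheoryData.{u, v, 0} 𝒱 ℚ)
    [IsChowProj C] {K : Type w} [Field K] (H : WeilTheoryData.{u, v, w} C K) [IsWeilProj H]
    (N : Kernels C) (hN : IsAbelJacobiKernel H N) (hC : FibreProperty C) (Q : Surfaces C)
    (hQ : ∀ (S : 𝒱.Obj) (q : C.A (S.prod S)), Q S q → IsTranscendental H S q) :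
    [∃ F : Filtrations C,
        IsBlochBeilinsonUpTo H 2 N (SummandOf C (IsProductOfCurvesAndSurfaces Q)) F,
      ∀ X Y : 𝒱.Obj, SummandOf C (IsProductOfCurvesAndSurfaces Q) X →
        SummandOf C (IsProductOfCurvesAndSurfaces Q) Y → ∀ Γ : C.A (X.prod Y), C.Deg X.dim Γ →
        Kills H Γ 2 → ∀ z : C.A X, N.Has 2 z → C.act Γ z = 0,
      InjectiveOnPrimitive Q N 2].TFAE :=
  two hN hC Q hQ

end Pool.Agent.Results.MP_08891c_ag.CodimensionTwo
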