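import Pool.Agent.Y148.BS.Translate

/-!
# The Bloch-Beilinson filtration on the varieties generated by curves and surfaces

`𝒱` is a class of smooth projective varieties over the field `k` closed under products (all of them,
for example), `C` the Chow groups with rational coefficients (in the form of their formal properties,
`IsChowProj`), `H` a Weil cohomology theory (`IsWeilProj`), and `N X j ⊆ CH^j(X)` the kernels of the
Abel-Jacobi maps (in the form of their formal properties, `IsAbelJacobiKernel`). The Chow groups have
the property of Bloch and Srinivas (`FibreProperty`): a class on `X × T`, `T` a curve, which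
restricts to zero on all the fibres `X × t` is a sum of classes `x × t`. `Q` is a family of surfaces
`S` together with the projectors `q` on their transcendental motives `t_2(S)` (`IsTranscendental`),
which exist for all surfaces over an algebraically closed field. For `k` the complex numbers all of
this holds for all smooth projective varieties and all surfaces.

Consider the class of all varieties whose Chow motive is a direct summand of the motive of a product
of curves and of surfaces in `Q`. (If `Q` is empty, these are the varieties whose motive is of
abelian type; in general the class contains for example all the surfaces in `Q`, their products,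
Hilbert schemes of points, and products of these with abelian varieties.)

There is a Bloch-Beilinson filtration on the Chow groups of the varieties in this class, in the sense
of the problem, if and only if for all `j ≥ 2` the Abel-Jacobi map is injective on the
homologically trivial cycles of codimension `j` of the motives
`h^1(T_1) ⊗ ⋯ ⊗ h^1(T_s) ⊗ t_2(S_1) ⊗ ⋯ ⊗ t_2(S_r)`, `s + 2r = 2j - 1`.

For the proof, let `V(n)` be the statement that, for the motives `M` of this form with `s + 2r = n`,
`CH^j(M) = 0` for `2j < n`, and `CH^j(M)_hom = 0` for `2j = n`. One shows `V(n)` for all `n`, from
the injectivity of the Abel-Jacobi maps on `CH^j(M)_hom` for `2j = n + 1` in the previous cases, by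
restriction to the fibres of a curve, or to the curves of a pencil on a surface through a base
point, which acts as the origin in the Chow-Kunneth decompositions of the surface and of the curves.
-/

open CategoryTheory AlgebraicGeometry

set_option autoImplicit false

universe u v w

namespace Pool.Agent.Results.MP_08891c_ag.CurvesAndSurfaces

open Pool.Agent.H914 Pool.Agent.W492.BB Pool.Agent.TH133 Pool.Agent.Y148.BS

/-- A Bloch-Beilinson filtration exists on the varieties whose motives are direct summands of
motives of products of curves and surfaces if and only if the Abel-Jacobi maps are injective on the
cycles of codimension `j` of the motives `h^1(T_1) ⊗ ⋯ ⊗ h^1(T_s) ⊗ t_2(S_1) ⊗ ⋯ ⊗ t_2(S_r)` with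
`s + 2r = 2j - 1`, for all `j ≥ 2`. -/
theorem result {k : Type u} [Field k] {𝒱 : VarClass k} (C : TheoryData.{u, v, 0} 𝒱 ℚ)
    [IsChowProj C] {K : Type w} [Field K] (H : WeilTheoryData.{u, v, w} C K) [IsWeilProj H]
    (N : Kernels C) (hN : IsAbelJacobiKernel H N) (hC : FibreProperty C) (Q : Surfaces C)
    (hQ : ∀ (S : 𝒱.Obj) (q : C.A (S.prod S)), Q S q → IsTranscendental H S q) :
    (∃ F : Filtrations C,
      IsBlochBeilinsonOn H N (SummandOf C (IsProductOfCurvesAndSurfaces Q)) F) ↔
      ∀ j : ℕ, 2 ≤ j → InjectiveOnPrimitive Q N j :=
  curvesAndSurfaces hN hC Q hQ

end Pool.Agent.Results.MP_08891c_ag.CurvesAndSurfaces
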