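import Pool.Agent.Y148.RV.Main

/-!
# Bloch-Beilinson filtrations, one variety at a time

`𝒱` is a class of smooth projective varieties over the field `k` closed under products (all of them,
for example), `C` the Chow groups with rational coefficients (in the form of their formal properties,
`IsChowProj`), `H` a Weil cohomology theory (`IsWeilProj`), and `N X j ⊆ CH^j(X)` the kernels of the
Abel-Jacobi maps (in the form of their formal properties, `IsAbelJacobiKernel`). `Rat` is a class of
varieties with a decomposition of the diagonal (`HasDecomposition`) such that for every `X` the
twist `h(X)(-1)` is a direct summand of the motive of some `R` in `Rat` (`TwistIsSummand`). For `k`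
the complex numbers all of this holds for all smooth projective varieties and for `Rat` the class of
all rational ones, since `X` can be blown up in a projective space.

Let `d` be a natural number or infinity. The following are equivalent:

* there is a Bloch-Beilinson filtration on the Chow groups of codimension at most `d`, for all
  varieties simultaneously;
* for every variety `X` there is a filtration on the Chow groups of `X` of codimension at most `d`
  with the properties of a Bloch-Beilinson filtration for the self-correspondences of `X`;
* for every `R` in `Rat` there is a filtration on the Chow groups of `R` of codimension at most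
  `d + 1` with the properties of a Bloch-Beilinson filtration for the self-correspondences of `R`,
  and with `F^j CH^j(R) = 0` for `j ≥ 1`;
* for every `R` in `Rat`, every `J ≤ d + 1`, all self-correspondences `Γ_2, …, Γ_{ν-1}` of `R` of
  degree zero such that `Γ_i` acts as zero on `H^(2J - i)(R)`, and all correspondences `Λ` from
  `CH^J(R)` to `CH^ν(R)`, the composition `Λ ∘ Γ_{ν-1} ∘ ⋯ ∘ Γ_2` acts as zero on the kernel of the
  Abel-Jacobi map of `CH^J(R)`.

The case `d = ∞` is the question of the problem: the filtrations need not be found simultaneously,
and the last statement is a criterion without filtrations, on rational varieties.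

For the proof, the smallest candidate for a Bloch-Beilinson filtration consists of sums of images of
elements of the kernels of the Abel-Jacobi maps under chains of correspondences between different
varieties, in different codimensions; such a chain is realised by self-correspondences of a single
variety, in a single codimension, as soon as all the necessary twists of the motives of the varieties
in the chain are direct summands of its motive.
-/

open CategoryTheory AlgebraicGeometry

set_option autoImplicit false

universe u v w

namespace Pool.Agent.Results.MP_08891c_ag.OneVariety

open Pool.Agent.H914 Pool.Agent.W492.BB Pool.Agent.TH133 Pool.Agent.Y148.BS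

/-- The following are equivalent: a Bloch-Beilinson filtration in codimension at most `d` exists
for all varieties simultaneously; it exists for every variety `X` separately, with the
self-correspondences of `X` only; it exists in codimension at most `d + 1` for every variety `R` in
`Rat` (all rational varieties, for example) separately, with `F^j CH^j(R) = 0` for `j ≥ 1`; the
compositions of self-correspondences of the varieties in `Rat` vanish on the kernels of the
Abel-Jacobi maps. -/
theorem result {k : Type u} [Field k] {𝒱 : VarClass k} (C : TheoryData.{u, v, 0} 𝒱 ℚ)
    [IsChowProj C] {K : Type w} [Field K] (H : WeilTheoryData.{u, v, w} C K) [IsWeilProj H]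
    (N : Kernels C) (hN : IsAbelJacobiKernel H N) (Rat : 𝒱.Obj → Prop)
    (h1 : ∀ R, Rat R → HasDecomposition C R)
    (h2 : ∀ X : 𝒱.Obj, ∃ R, Rat R ∧ TwistIsSummand C X R) (d : ℕ∞) :
    [∃ F : Filtrations C, IsBlochBeilinsonIn H d N (fun _ => True) F,
      ∀ X : 𝒱.Obj, ∃ F : Filtrations C, IsBlochBeilinsonIn H d N (fun Y => Y = X) F,
      ∀ R, Rat R → ∃ F : Filtrations C, IsBlochBeilinsonIn H (d + 1) N (fun Y => Y = R) F ∧
        ∀ j : ℕ, 1 ≤ j → j ≤ d + 1 → ∀ z : C.A R, F.Has j j z → z = 0,
      ∀ R, Rat R → ∀ (J ν : ℕ) (w : C.A R) (Λ : C.A (R.prod R)), J ≤ d + 1 →
        SelfChain H N R J ν w → C.Deg (R.dim + ν - J) Λ → C.act Λ w = 0].TFAE :=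
  Pool.Agent.Y148.RV.main hN Rat h1 h2 d

end Pool.Agent.Results.MP_08891c_ag.OneVariety
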