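import Pool.Agent.Y148.KL.Translate

/-!
# The Bloch-Beilinson filtration and the kernels of the Abel-Jacobi maps in dimension `2j - 1`

`𝒱` is the class of all smooth projective varieties over `k` (an algebraically closed field of
infinite transcendence degree, such as the field of complex numbers), `C` the Chow groups with
rational coefficients (in the form of their formal properties, `IsChowProj`), `H` a Weil cohomology
theory (`IsWeilProj`), and `N X j ⊆ CH^j(X)` the kernels of the Abel-Jacobi maps. The geometric
input consists of the hard Lefschetz theorem and the existence of linear sections and of general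
hypersurface sections (`HasHyperplaneSections`), of a curve of positive genus, and of the theorem of
Bloch and Srinivas for products with curves (`FibreProperty`).

The following are equivalent:

1. the Kunneth standard conjecture holds and there is a Bloch-Beilinson filtration on the Chow groups
   of all varieties (conditions 1, 2, 3, 4 of the problem);
2. the Kunneth standard conjecture holds and there is a finite filtration `F` (with no bound for its
   length) with `F^0 = CH^j(X)` such that the self-correspondences of degree zero which act as
   zero on `H^(2j-ν)(X)` map `F^ν` to `F^(ν+1)`, and such that `F^2` contains the kernel of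
   the Abel-Jacobi map of `CH^j(X)` if `dim X = 2j - 1`;
3. every variety has a Chow-Kunneth decomposition and, for all `X` of dimension `2j - 1` and all
   Chow-Kunneth decompositions `π` of `X`, the kernel of the Abel-Jacobi map of `CH^j(X)` is
   contained in (then: equal to) `F^2 CH^j(X) = (π_(2j-2) + ⋯ + π_0)_* CH^j(X)`;
4. the Kunneth standard conjecture holds and for all `X` of dimension `2j - 1` and all
   self-correspondences `Γ` of degree zero which act as zero on `H^i(X)` for `i ≤ 2j - 2`, the
   operator `(Γ_*)^(j-1)` is zero on the kernel of the Abel-Jacobi map of `CH^j(X)`.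

So under the Kunneth standard conjecture the question is equivalent to a statement (4) in which
neither filtrations nor decompositions appear, and which concerns only cycles of dimension `j - 1`
on varieties of dimension `2j - 1`. In (3) neither Murre's conjecture (D), nor (B), nor (C) is
assumed.

Proof of 4 ⇒ 3. If `Γ` is a homologically trivial self-correspondence of degree zero of `X`,
`d = dim X`, and `ξ` is a zero-cycle of degree zero on a curve `T`, then `Γ × ξ` is in the kernel of
the Abel-Jacobi map of `CH^(d+1)(X × X × T)`, and (4) for the homologically trivial
self-correspondence of `X × X × T` given by `Γ` shows that `Γ^(d+1) × ξ = 0`. By the theorem of Bloch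
and Srinivas for the class `y × h^1(T)`, `y = Γ^(d+1)`, some non-zero multiple of `y` factors through
correspondences of the form `id × ξ`, so `y y = 0`. Hence homologically trivial correspondences
are nilpotent and the Kunneth projectors lift.
Proof of 3 ⇒ 1. A similar argument gives Murre's conjecture (D) for cycles of codimension `j` on
varieties of dimension `2j`, and then for all varieties. This gives a finite filtration. To obtain
`F^(j+1) CH^j = 0` and the description of `F^2` for all `X`, one shows that the Kunneth
standard conjecture gives algebraic left inverses of the Lefschetz operators: the class `ω` on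
`X × X` of the inverse of `L : H^(d-1)(X) → H^(d+1)(X)` satisfies
`(L × 1 + 1 × L) ω = π_(d-1) + π_(d+1)`, and it is algebraic because for a general section `Y` of
`X × X` the Kunneth projector `π_(2d-2)` of `Y` is the restriction of a correspondence of
`X × X`, which inverts `L × 1 + 1 × L` in degree `2d - 2`; other degrees are treated by
replacing `X` by `X × P`.
-/

open CategoryTheory AlgebraicGeometry

set_option autoImplicit false

universe u v w

namespace Pool.Agent.Results.MP_08891c_ag.PowersOnKernels

open Pool.Agent.H914 Pool.Agent.W492.BB Pool.Agent.TH133 Pool.Agent.Y148.BS Pool.Agent.Y148.SS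
  Pool.Agent.Y148.KL

/-- The following are equivalent: the Kunneth standard conjecture holds and a Bloch-Beilinson
filtration exists; the same for finite filtrations with weaker properties; all varieties have
Chow-Kunneth decompositions, and the kernel of the Abel-Jacobi map of `CH^j(X)` is contained in
`F^2` if `dim X = 2j - 1`; the Kunneth standard conjecture holds, and the power `j - 1` of any
self-correspondence of degree zero of a variety `X` of dimension `2j - 1` which acts as zero on
`H^i(X)` for `i ≤ 2j - 2` acts as zero on the kernel of the Abel-Jacobi map of `CH^j(X)`. -/
theorem result {k : Type u} [Field k] {𝒱 : VarClass k} (C : TheoryData.{u, v, 0} 𝒱 ℚ)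
    [IsChowProj C] {K : Type w} [Field K] (H : WeilTheoryData.{u, v, w} C K) [IsWeilProj H]
    (A : ∀ X : 𝒱.Obj, C.A X → Prop) (hA : HasHyperplaneSections H A)
    (hT : HasIrrationalCurve H) (hF : FibreProperty C)
    (N : Kernels C) (hN : IsAbelJacobiKernel H N) :
    List.TFAE [
      KunnethConjecture H ∧ ∃ F : Filtrations C, IsBlochBeilinsonOn H N (fun _ => True) F,
      KunnethConjecture H ∧ ∃ F : Filtrations C, IsFiniteFiltration H F ∧
        ∀ (X : 𝒱.Obj) (j : ℕ), 2 ≤ j → X.dim + 1 = 2 * j → ∀ z : C.A X, N.Has j z → F.Has j 2 z,
      (∀ X : 𝒱.Obj, ∃ π : ℕ → C.A (X.prod X), IsChowKunneth H π) ∧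
        ∀ (X : 𝒱.Obj) (j : ℕ), 2 ≤ j → X.dim + 1 = 2 * j → ∀ π : ℕ → C.A (X.prod X),
          IsChowKunneth H π → ∀ z : C.A X, N.Has j z → InStep π j 2 z,
      KunnethConjecture H ∧ ∀ (X : 𝒱.Obj) (j : ℕ), 2 ≤ j → X.dim + 1 = 2 * j →
        ∀ Γ : C.A (X.prod X), C.Deg X.dim Γ → (∀ i : ℕ, i + 2 ≤ 2 * j → Kills H Γ i) →
          ∀ z : C.A X, N.Has j z → (C.act Γ)^[j - 1] z = 0] :=
  powersOnKernels hA hT hN hF

end Pool.Agent.Results.MP_08891c_ag.PowersOnKernels
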